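import Pool.Agent.MP_2fc7fa_gt.Q.Top

namespace Pool.Agent.Results.MP_2fc7fa_gt.CyclicInvariant

open Pool.Agent.MP_2fc7fa_gt

/-- For every order `p ≥ 26` and every nonzero class, the space of symplectic forms on the complex
projective plane in that class that are invariant under the cyclic group of the matrices
`diag (1, ζ, ζ)`, `ζ ^ p = 1`, has infinitely many connected components in the `C^∞` topology. -/
theorem result (p : ℕ) (hp : 26 ≤ p) (l : ℝ) (hl : l ≠ 0) :
    Infinite (ConnectedComponents {σ : Symp l // Invariant (Cyc p) σ.form}) :=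
  @N.Fp.Q.infinite_cc ⟨p, hp⟩ l hl

end Pool.Agent.Results.MP_2fc7fa_gt.CyclicInvariant
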