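import Pool.Agent.Mg.F2fc7fa.Gcd7a22
import Pool.Agent.Mg.F2fc7fa.Gfb698a
import Pool.Agent.Mg.F2fc7fa.Gf5525e
import Pool.Agent.Mg.F2fc7fa.Gf55e0a

namespace Pool.Agent.Results.MP_2fc7fa_gt.NotContractible

open Pool.Agent.MP_2fc7fa_gt

/-- For every nonzero class, the space of symplectic forms on the complex projective plane in that
class is nonempty and not contractible in the `C^∞` topology. -/
theorem result (l : ℝ) (hl : l ≠ 0) : Nonempty (Symp l) ∧ ¬ ContractibleSpace (Symp l) :=
  ⟨N.stdFS.elim fun σ _ => ⟨N.sc_AStd hl (mul_one l).symm σ⟩,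
    N.glue N.chord N.core N.fS N.gromov_B N.uniq_B N.lin l hl⟩

end Pool.Agent.Results.MP_2fc7fa_gt.NotContractible
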