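import Pool.Agent.Mg.F2fc7fa.G7baa30

namespace Pool.Agent.Results.MP_2fc7fa_gt.SU2Invariant

open Pool.Agent.MP_2fc7fa_gt

/-- For every nonzero class, the space of `SU(2)`-invariant symplectic forms on the complex
projective plane in that class is contractible in the `C^∞` topology. -/
theorem result (l : ℝ) (hl : l ≠ 0) : ContractibleSpace {σ : Symp l // Invariant SU2 σ.form} :=
  contractible l hl

end Pool.Agent.Results.MP_2fc7fa_gt.SU2Invariant
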